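import Mathlib
import Pool.Agent.X23.BTMain
import Pool.Agent.X23.BTStmt

/-!
# A subnormal block Toeplitz operator, neither normal nor analytic, with `Φ = B Φ*`
-/

open MeasureTheory AddCircle
open scoped InnerProductSpace ENNReal

namespace Pool.Agent.Results.MP_e84edf_an.DiagonalCounterexample

open Pool.Agent.X23

theorem gen {W : Type} [NormedAddCommGroup W] [InnerProductSpace ℂ W] [CompleteSpace W]
    {E : BT.Mat W} {e0 e1 : W} (U : Submodule ℂ (BT.L2 W)) [CompleteSpace U]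
    (hU : U = BT.H2 W) (h : BT.Dat E e0 e1) :
    BTS.Subnormal (U.orthogonalProjectionOnto ∘L BT.mc (BT.c E) ∘L U.subtypeL) ∧
      ¬ IsStarNormal (U.orthogonalProjectionOnto ∘L BT.mc (BT.c E) ∘L U.subtypeL) := by
  subst hU
  exact ⟨BT.subn h, BT.not_normal h⟩

/-- the projection matrix -/
def E0 : Matrix (Fin 2) (Fin 2) ℂ := !![1, 0; 0, 0]

theorem E0_idem : E0 * E0 = E0 := by
  unfold E0
  ext i j
  fin_cases i <;> fin_cases j <;> simp

theorem E0_star : E0.conjTranspose = E0 := by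
  unfold E0
  ext i j
  fin_cases i <;> fin_cases j <;> simp

theorem F0_idem : (1 - E0) * (1 - E0) = 1 - E0 := by
  rw [mul_sub, sub_mul, sub_mul, E0_idem]; noncomm_ring

theorem EF0 : E0 * (1 - E0) = 0 := by rw [mul_sub, E0_idem, mul_one, sub_self]

theorem FE0 : (1 - E0) * E0 = 0 := by rw [sub_mul, E0_idem, one_mul, sub_self]

theorem F0_star : (1 - E0).conjTranspose = 1 - E0 := by
  rw [Matrix.conjTranspose_sub, Matrix.conjTranspose_one, E0_star]

/-- The symbol `diag(z + 1/z, z)`. -/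
noncomputable def Φ (t : UnitAddCircle) : Matrix (Fin 2) (Fin 2) ℂ :=
  (fourier 1 t : ℂ) • E0 + (fourier (-1) t : ℂ) • E0 + (fourier 1 t : ℂ) • (1 - E0)

/-- The product `diag(1, z²)`. -/
noncomputable def B (z : ℂ) : Matrix (Fin 2) (Fin 2) ℂ := E0 + z ^ 2 • (1 - E0)

theorem B_bp : BTS.IsBP B := by
  refine ⟨1, [(0, 1 - E0), (0, 1 - E0)], one_mem _, ?_, ?_⟩
  · intro p hp
    have hp' : p = (0, 1 - E0) := by simpa using hp
    subst hp'
    refine ⟨by simp, F0_idem, F0_star, ?_⟩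
    intro h'
    have h1 := congrFun (congrFun h' 1) 1
    simp [E0] at h1
  · intro z
    simp only [List.map_cons, List.map_nil, List.prod_cons, List.prod_nil, mul_one, one_mul]
    have hb : BTS.bl 0 z = z := by simp [BTS.bl]
    rw [hb, sub_sub_cancel, mul_add, add_mul, add_mul, smul_mul_assoc, mul_smul_comm, F0_idem,
      mul_smul_comm, EF0, smul_mul_assoc, FE0, E0_idem, B, smul_smul, ← pow_two]
    simp [add_comm]

theorem rel (t : UnitAddCircle) : Φ t = B (fourier 1 t) * (Φ t).conjTranspose := by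
  have hs : (Φ t).conjTranspose = (fourier (-1) t : ℂ) • E0 + (fourier 1 t : ℂ) • E0
      + (fourier (-1) t : ℂ) • (1 - E0) := by
    rw [Φ, Matrix.conjTranspose_add, Matrix.conjTranspose_add, Matrix.conjTranspose_smul,
      Matrix.conjTranspose_smul, Matrix.conjTranspose_smul, E0_star, F0_star, BT.star_f1,
      BT.star_f2]
  rw [hs, Φ, B]
  have hz : (fourier 1 t : ℂ) * fourier (-1) t = 1 := by
    rw [← fourier_add, add_neg_cancel, fourier_zero]
  simp only [add_mul, mul_add, mul_smul_comm, smul_mul_assoc, E0_idem, EF0, FE0, F0_idem,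
    smul_zero, add_zero, zero_add, smul_smul]
  have h3 : (fourier (-1) t : ℂ) * (fourier 1 t : ℂ) ^ 2 = fourier 1 t := by
    rw [pow_two, ← mul_assoc, mul_comm (fourier (-1) t : ℂ), hz, one_mul]
  rw [h3]
  abel

theorem bdd : BTS.IsBdd Φ := by
  intro i j
  have hc : Continuous (fun t => Φ t i j) := by
    have : (fun t => Φ t i j) = fun t => (fourier 1 t : ℂ) * E0 i j + (fourier (-1) t : ℂ) * E0 i j
        + (fourier 1 t : ℂ) * ((1 : Matrix (Fin 2) (Fin 2) ℂ) i j - E0 i j) := by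
      funext t
      simp [Φ]
    rw [this]
    fun_prop
  obtain ⟨C, hC⟩ := isCompact_univ.exists_bound_of_continuousOn hc.continuousOn
  exact memLp_top_of_bound hc.aestronglyMeasurable C
    (Filter.Eventually.of_forall (fun t => hC t (Set.mem_univ t)))

theorem not_an : ¬ BTS.IsAnalytic Φ := by
  intro h
  have h1 := h (-1) (by norm_num) 0 0
  unfold fourierCoeff at h1
  have h2 : ∀ t : UnitAddCircle, (fourier (-(-1)) t : ℂ) • Φ t 0 0 =
      (fourier 2 t : ℂ) + 1 := by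
    intro t
    have hz : (fourier 1 t : ℂ) * fourier (-1) t = 1 := by
      rw [← fourier_add, add_neg_cancel, fourier_zero]
    have h3 : (fourier (2 : ℤ) t : ℂ) = fourier 1 t * fourier 1 t := by
      rw [← fourier_add]; norm_num
    have h4 : Φ t 0 0 = (fourier 1 t : ℂ) + fourier (-1) t := by
      simp [Φ, E0]
    rw [h4, neg_neg, smul_eq_mul, mul_add, hz, h3]
  simp only [h2] at h1
  have hi : Integrable (fun t => (fourier 2 t : ℂ)) (haarAddCircle : Measure UnitAddCircle) :=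
    (fourier 2).continuous.integrable_of_hasCompactSupport (HasCompactSupport.of_compactSpace _)
  rw [integral_add hi (integrable_const 1), BT.int_fourier 2 (by norm_num)] at h1
  simp at h1

/-- the operator of `E0` on `ℂ²` -/
noncomputable def EE : BT.Mat (BTS.Cn 2) := Matrix.toEuclideanCLM (𝕜 := ℂ) E0

theorem dat : BT.Dat EE (show BTS.Cn 2 from WithLp.toLp 2 ![1, 0])
    (show BTS.Cn 2 from WithLp.toLp 2 ![0, 1]) := by
  refine ⟨?_, ?_, ?_, ?_, ?_, ?_⟩
  · change star (Matrix.toEuclideanCLM (𝕜 := ℂ) E0) = Matrix.toEuclideanCLM (𝕜 := ℂ) E0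
    rw [← map_star, Matrix.star_eq_conjTranspose, E0_star]
  · change (Matrix.toEuclideanCLM (𝕜 := ℂ) E0) * (Matrix.toEuclideanCLM (𝕜 := ℂ) E0) =
      Matrix.toEuclideanCLM (𝕜 := ℂ) E0
    rw [← map_mul, E0_idem]
  · change Matrix.toEuclideanCLM (𝕜 := ℂ) E0 (WithLp.toLp 2 ![1, 0]) = WithLp.toLp 2 ![1, 0]
    rw [Matrix.toEuclideanCLM_toLp]
    congr 1
    ext i
    fin_cases i <;> simp [E0]
  · change Matrix.toEuclideanCLM (𝕜 := ℂ) E0 (WithLp.toLp 2 ![0, 1]) = 0
    rw [Matrix.toEuclideanCLM_toLp]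
    have : E0.mulVec ![0, 1] = 0 := by
      ext i
      fin_cases i <;> simp [E0]
    rw [this]
    rfl
  · intro h
    have h1 : ((WithLp.toLp 2 ![1, 0] : EuclideanSpace ℂ (Fin 2))) 0 = 0 := by
      have h2 : (WithLp.toLp 2 ![1, 0] : EuclideanSpace ℂ (Fin 2)) = 0 := h
      rw [h2]; rfl
    simp at h1
  · intro h
    have h1 : ((WithLp.toLp 2 ![0, 1] : EuclideanSpace ℂ (Fin 2))) 1 = 0 := by
      have h2 : (WithLp.toLp 2 ![0, 1] : EuclideanSpace ℂ (Fin 2)) = 0 := h
      rw [h2]; rfl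
    simp at h1

theorem H2_same : BTS.H2 2 = BT.H2 (BTS.Cn 2) := by
  rw [BT.H2_eq, BTS.H2]
  congr 2
  ext g
  constructor
  · rintro ⟨k, v, h⟩
    refine ⟨k, (show BTS.Cn 2 from WithLp.toLp 2 v), ?_⟩
    filter_upwards [h] with t ht
    have h2 := congrArg (WithLp.toLp 2) ht
    exact h2
  · rintro ⟨k, v, h⟩
    refine ⟨k, BTS.coord v, ?_⟩
    filter_upwards [h] with t ht
    have h2 := congrArg (BTS.coord) ht
    exact h2

theorem toep : BTS.IsToeplitz Φ
    (show BTS.Hd 2 →L[ℂ] BTS.Hd 2 from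
      ((BTS.H2 2).orthogonalProjectionOnto ∘L BT.mc (BT.c EE) ∘L (BTS.H2 2).subtypeL)) := by
  intro f g h
  have h1 : BT.mc (BT.c EE) (BTS.incl f) = g := by
    apply Lp.ext
    filter_upwards [BT.mc_ae (BT.c EE) (BTS.incl f), h] with t h1 h2
    rw [h1]
    have h3 : BT.c EE t = Matrix.toEuclideanCLM (𝕜 := ℂ) (Φ t) := by
      rw [Φ, map_add, map_add, map_smul, map_smul, map_smul, map_sub, map_one]
      rfl
    rw [h3]
    have h4 := congrArg (WithLp.toLp 2) h2
    exact h4.symm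
  change (BTS.H2 2).orthogonalProjectionOnto (BT.mc (BT.c EE) (BTS.incl f)) =
    (BTS.H2 2).orthogonalProjectionOnto g
  rw [h1]

/-- There are `n`, a symbol `Φ ∈ L^∞_{M_n}` and a finite Blaschke–Potapov product `B` with
`Φ = B Φ*` almost everywhere such that `T_Φ` is subnormal but neither normal nor analytic. -/
theorem result : ∃ (n : ℕ) (Φ : UnitAddCircle → Matrix (Fin n) (Fin n) ℂ)
    (B : ℂ → Matrix (Fin n) (Fin n) ℂ) (T : BTS.Hd n →L[ℂ] BTS.Hd n),
    BTS.IsBdd Φ ∧ BTS.IsBP B ∧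
    (∀ᵐ t ∂haarAddCircle, Φ t = B (fourier 1 t) * (Φ t).conjTranspose) ∧
    BTS.IsToeplitz Φ T ∧ BTS.Subnormal T ∧ ¬ IsStarNormal T ∧ ¬ BTS.IsAnalytic Φ := by
  have key := @gen (BTS.Cn 2) _ _ _ EE _ _ (BTS.H2 2) (BTS.hC 2) H2_same dat
  exact ⟨2, Φ, B, _, bdd, B_bp, Filter.Eventually.of_forall rel, toep, key.1, key.2, not_an⟩

end Pool.Agent.Results.MP_e84edf_an.DiagonalCounterexample
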